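import Mathlib
import Pool.Agent.Helper52.SX.Goals2

set_option autoImplicit false

/-!
Project SX (MP_34c247_lc), packet LEV: the leaves of the reading tree.
-/

namespace Pool.Agent.Helper66.SX

open Pool.Agent.Helper52.SX
open Pool.Agent.Helper78.JT (Clause Holds coin)

/-- One step of the tree. -/
def stp (F : List Clause) (a : List (ℕ × Bool)) : List (List (ℕ × Bool)) :=
  if 2 ≤ nx F a then [a ++ [(nx F a - 2, false)], a ++ [(nx F a - 2, true)]] else [a]

theorem lvs_zero (F : List Clause) : lvs F 0 = [[]] := rfl

theorem lvs_succ (F : List Clause) (D : ℕ) : lvs F (D + 1) = (lvs F D).flatMap (stp F) := by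
  unfold lvs
  rw [Function.iterate_succ_apply']
  rfl

theorem run_zero {n : ℕ} (F : List Clause) (x : Fin n → Bool) : run F x 0 = [] := rfl

theorem run_succ {n : ℕ} (F : List Clause) (x : Fin n → Bool) (D : ℕ) : run F x (D + 1) =
    if 2 ≤ nx F (run F x D) then
      run F x D ++ [(nx F (run F x D) - 2, coin x (nx F (run F x D) - 2))]
    else run F x D := by
  unfold run
  rw [Function.iterate_succ_apply']

theorem nx_one {F : List Clause} {a : List (ℕ × Bool)} (h : nx F a = 1) :
    ∀ C ∈ F, ∃ p ∈ C, p ∈ a := by
  unfold nx at h
  split at h
  · rename_i hf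
    intro C hC
    have h1 := List.find?_eq_none.1 hf C hC
    change ¬ (!(C.any fun p => a.contains p)) = true at h1
    have h2 : (C.any fun p => a.contains p) = true := by
      cases h3 : (C.any fun p => a.contains p)
      · rw [h3] at h1
        exact absurd rfl h1
      · rfl
    obtain ⟨p, hp, hpa⟩ := List.any_eq_true.1 h2
    exact ⟨p, hp, by simpa using hpa⟩
  · split at h
    · omega
    · omega

theorem nx_zero {F : List Clause} {a : List (ℕ × Bool)} (h : nx F a = 0) :
    ∃ C ∈ F, ∀ p ∈ C, (p.1, !p.2) ∈ a := by
  unfold nx at h
  split at h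
  · omega
  · rename_i C hf
    split at h
    · omega
    · rename_i hg
      refine ⟨C, List.mem_of_find?_eq_some hf, fun p hp => ?_⟩
      have h1 := List.find?_eq_none.1 hg p hp
      simpa using h1

theorem nx_two {F : List Clause} {a : List (ℕ × Bool)} (h : 2 ≤ nx F a) :
    ∃ C ∈ F, (∀ p ∈ C, p ∉ a) ∧ ∃ p ∈ C, (p.1, !p.2) ∉ a ∧ nx F a = p.1 + 2 := by
  unfold nx at h ⊢
  split at h
  · omega
  · rename_i C hf
    split at h
    · rename_i p hg
      refine ⟨C, List.mem_of_find?_eq_some hf, ?_, p, List.mem_of_find?_eq_some hg, ?_, ?_⟩
      · have h1 := List.find?_some hf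
        simpa using h1
      · have h1 := List.find?_some hg
        simpa using h1
      · rfl
    · omega

theorem nx_two' {n : ℕ} {F : List Clause} (hF : Cln n F) {a : List (ℕ × Bool)}
    (h : 2 ≤ nx F a) : nx F a - 2 < n ∧ nx F a - 2 ∉ a.map Prod.fst := by
  obtain ⟨C, hC, h1, p, hp, h2, h3⟩ := nx_two h
  have e : nx F a - 2 = p.1 := by omega
  rw [e]
  refine ⟨((hF C hC).2 p hp).1, fun hm => ?_⟩
  obtain ⟨q, hq, hqp⟩ := List.mem_map.1 hm
  obtain ⟨v, b⟩ := p
  obtain ⟨w, b'⟩ := q
  simp only at hqp
  subst hqp
  by_cases hb : b' = b
  · subst hb
    exact h1 _ hp hq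
  · have hb' : b' = !b := by
      cases b <;> cases b' <;> simp_all
    subst hb'
    exact h2 hq

theorem length_flatMap_le (F : List Clause) (L : List (List (ℕ × Bool))) :
    (L.flatMap (stp F)).length ≤ 2 * L.length := by
  induction L with
  | nil => simp
  | cons a L ih =>
    rw [List.flatMap_cons, List.length_append, List.length_cons]
    have h1 : (stp F a).length ≤ 2 := by
      unfold stp
      split_ifs <;> simp
    omega

theorem run_coin {n : ℕ} (F : List Clause) (x : Fin n → Bool) (D : ℕ) :
    ∀ p ∈ run F x D, coin x p.1 = p.2 := by
  induction D with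
  | zero => intro p hp; rw [run_zero] at hp; simp at hp
  | succ D ih =>
    intro p hp
    rw [run_succ] at hp
    split_ifs at hp with h
    · rcases List.mem_append.1 hp with h1 | h1
      · exact ih p h1
      · rw [List.mem_singleton] at h1
        subst h1
        rfl
    · exact ih p hp

theorem lev : LevStmt := by
  intro n F D hF
  refine ⟨?_, ?_, fun x => ⟨?_, ?_, ?_, ?_⟩⟩
  · induction D with
    | zero => simp [lvs_zero]
    | succ D ih =>
      rw [lvs_succ, pow_succ]
      have := length_flatMap_le F (lvs F D)
      omega
  · induction D with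
    | zero =>
      intro a ha
      rw [lvs_zero, List.mem_singleton] at ha
      subst ha
      simp
    | succ D ih =>
      intro a' ha'
      rw [lvs_succ, List.mem_flatMap] at ha'
      obtain ⟨a, ha, h1⟩ := ha'
      obtain ⟨h2, h3, h4⟩ := ih a ha
      unfold stp at h1
      split_ifs at h1 with h
      · obtain ⟨h5, h6⟩ := nx_two' hF h
        have key : ∀ b : Bool, (a ++ [(nx F a - 2, b)]).length ≤ D + 1 ∧
            ((a ++ [(nx F a - 2, b)]).map Prod.fst).Nodup ∧
            ∀ p ∈ a ++ [(nx F a - 2, b)], p.1 < n := by
          intro b
          refine ⟨by simp; exact h2, ?_, ?_⟩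
          · rw [List.map_append, List.nodup_append]
            refine ⟨h3, by simp, ?_⟩
            intro u hu w hw
            simp only [List.map_cons, List.map_nil, List.mem_singleton] at hw
            subst hw
            intro h7
            exact h6 (h7 ▸ hu)
          · intro p hp
            rcases List.mem_append.1 hp with h7 | h7
            · exact h4 p h7
            · rw [List.mem_singleton] at h7
              subst h7
              exact h5
        rcases List.mem_cons.1 h1 with h7 | h7
        · rw [h7]; exact key false
        · rw [List.mem_singleton] at h7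
          rw [h7]; exact key true
      · rw [List.mem_singleton] at h1
        subst h1
        exact ⟨by omega, h3, h4⟩
  · induction D with
    | zero => simp [lvs_zero, run_zero]
    | succ D ih =>
      rw [lvs_succ, List.mem_flatMap]
      refine ⟨run F x D, ih, ?_⟩
      rw [run_succ]
      unfold stp
      split_ifs with h
      · cases coin x (nx F (run F x D) - 2) <;> simp
      · simp
  · induction D with
    | zero =>
      intro a ha
      rw [lvs_zero, List.mem_singleton] at ha
      subst ha
      simp [run_zero]
    | succ D ih =>
      intro a' ha'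
      refine ⟨fun hc => ?_, fun h => ?_⟩
      · rw [lvs_succ, List.mem_flatMap] at ha'
        obtain ⟨a, ha, h1⟩ := ha'
        unfold stp at h1
        rw [run_succ]
        split_ifs at h1 with h
        · have key : ∀ b : Bool, a' = a ++ [(nx F a - 2, b)] →
              a' = if 2 ≤ nx F (run F x D) then
                run F x D ++ [(nx F (run F x D) - 2, coin x (nx F (run F x D) - 2))]
                else run F x D := by
            intro b hb
            have h2 : a = run F x D := (ih a ha).1 fun p hp => hc p (by
              rw [hb]; exact List.mem_append_left _ hp)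
            have h3 : coin x (nx F a - 2) = b := hc (nx F a - 2, b) (by
              rw [hb]; exact List.mem_append_right _ (List.mem_singleton.2 rfl))
            rw [← h2, if_pos h, h3]
            exact hb
          rcases List.mem_cons.1 h1 with h7 | h7
          · exact key false h7
          · rw [List.mem_singleton] at h7
            exact key true h7
        · rw [List.mem_singleton] at h1
          subst h1
          have h2 : a' = run F x D := (ih a' ha).1 hc
          rw [← h2, if_neg h]
      · rw [h]
        exact run_coin F x (D + 1)
  · intro h C hC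
    obtain ⟨p, hp, hpa⟩ := nx_one h C hC
    exact ⟨p, hp, run_coin F x D p hpa⟩
  · intro h hH
    obtain ⟨C, hC, h1⟩ := nx_zero h
    obtain ⟨p, hp, h2⟩ := hH C hC
    have h3 := run_coin F x D _ (h1 p hp)
    simp only at h3
    rw [h2] at h3
    cases hb : p.2 <;> rw [hb] at h3 <;> simp at h3

end Pool.Agent.Helper66.SX
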